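import Pool.Agent.Y738.PE.Stm

/-!
# Different tilings are exactly orthogonal
-/

set_option autoImplicit false

open scoped BigOperators ComplexConjugate Classical

namespace Pool.Agent.Y562.PE

open Pool.Agent.Y738.PE

section cyc

variable {N L : ℕ} {α α' β : ZMod L → Lab N}

theorem cyc_next (h : Cyc β) (x : ZMod L) : step (β x) (β (x + 1)) := by
  have h1 := (h (x + 1)).2
  rwa [add_sub_cancel_right] at h1

theorem pos_eq (h : Cyc α) (h' : Cyc α')
    (h0 : ∀ x, (((α x).2 : ℕ) = 0 ↔ ((α' x).2 : ℕ) = 0)) :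
    ∀ (k : ℕ) (x : ZMod L), ((α x).2 : ℕ) = k → ((α' x).2 : ℕ) = k := by
  intro k
  induction k with
  | zero => intro x hx; exact (h0 x).1 hx
  | succ k ih =>
    intro x hx
    have h1 : ((α (x - 1)).2 : ℕ) = k := by
      rcases (h x).2 with ⟨-, h2⟩ | ⟨-, h2⟩ <;> omega
    have h2 := ih (x - 1) h1
    rcases (h' x).2 with ⟨-, h3⟩ | ⟨-, h3⟩
    · omega
    · have h4 := (h0 x).2 h3
      omega

theorem len_eq (hN : 1 ≤ N) (h : Cyc α) (h' : Cyc α')
    (hp : ∀ x, ((α x).2 : ℕ) = ((α' x).2 : ℕ)) :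
    ∀ (j : ℕ) (x : ZMod L), ((α x).2 : ℕ) + j = N - 1 → ((α x).1 : ℕ) = ((α' x).1 : ℕ) := by
  intro j
  induction j with
  | zero =>
    intro x hx
    have h1 := cyc_next h x
    have h2 := cyc_next h' x
    have h3 := (h (x + 1)).1
    have h4 := (h' (x + 1)).1
    have h5 := hp x
    have h6 := hp (x + 1)
    have h7 := (α x).1.2
    have h8 := (α' x).1.2
    unfold okL at h3 h4
    rcases h1 with ⟨h1, h1'⟩ | ⟨h1, h1'⟩ <;> rcases h2 with ⟨h2, h2'⟩ | ⟨h2, h2'⟩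
    · rw [h1] at h3
      rw [h2] at h4
      omega
    · omega
    · omega
    · omega
  | succ j ih =>
    intro x hx
    have h1 := cyc_next h x
    have h2 := cyc_next h' x
    have h5 := hp x
    rcases h1 with ⟨h1, h1'⟩ | ⟨h1, h1'⟩
    · rcases h2 with ⟨h2, h2'⟩ | ⟨h2, h2'⟩
      · have h3 := ih (x + 1) (by omega)
        rw [h1, h2] at h3
        exact h3
      · omega
    · omega

theorem cyc_eq (hN : 1 ≤ N) (h : Cyc α) (h' : Cyc α')
    (h0 : ∀ x, (((α x).2 : ℕ) = 0 ↔ ((α' x).2 : ℕ) = 0)) : α = α' := by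
  have hp : ∀ x, ((α x).2 : ℕ) = ((α' x).2 : ℕ) := fun x => (pos_eq h h' h0 _ x rfl).symm
  funext x
  apply Prod.ext
  · apply Fin.ext
    by_cases hx : ((α x).2 : ℕ) ≤ N - 1
    · exact len_eq hN h h' hp (N - 1 - (α x).2) x (by omega)
    · have h1 := (h x).1
      have h2 := (h' x).1
      have h3 := hp x
      have h4 := (α x).1.2
      have h5 := (α' x).1.2
      unfold okL at h1 h2
      omega
  · exact Fin.ext (hp x)

theorem find_zero (h : Cyc β) (a : ZMod L) : ∃ t : ℕ, t ≤ N + 1 ∧ ((β (a + t)).2 : ℕ) = 0 := by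
  by_contra hcon
  push Not at hcon
  have h1 : ∀ t : ℕ, t ≤ N + 1 → ((β (a + t)).2 : ℕ) = ((β a).2 : ℕ) + t := by
    intro t
    induction t with
    | zero => intro _; simp
    | succ t ih =>
      intro ht
      have h2 := ih (by omega)
      have h3 := cyc_next h (a + t)
      have h4 : a + (t : ZMod L) + 1 = a + ((t + 1 : ℕ) : ZMod L) := by push_cast; ring
      rw [h4] at h3
      rcases h3 with ⟨-, h5⟩ | ⟨-, h5⟩
      · omega
      · exact absurd h5 (hcon (t + 1) ht)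
  have h2 := h1 (N + 1) le_rfl
  have h3 := (β (a + ((N + 1 : ℕ) : ZMod L))).2.2
  omega

theorem from_zero (h : Cyc β) (b : ZMod L) (hb : ((β b).2 : ℕ) = 0) :
    ∀ j : ℕ, j ≤ N - 1 → ((β (b + j)).2 : ℕ) = j := by
  intro j
  induction j with
  | zero => intro _; simpa using hb
  | succ j ih =>
    intro hj
    have h2 := ih (by omega)
    have h3 := cyc_next h (b + j)
    have h4 : b + (j : ZMod L) + 1 = b + ((j + 1 : ℕ) : ZMod L) := by push_cast; ring
    rw [h4] at h3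
    rcases h3 with ⟨-, h5⟩ | ⟨h5, -⟩
    · omega
    · omega

/-- a site with given position, outside of the first `r` ones -/
theorem find_pos [NeZero L] (h : Cyc β) (r j : ℕ) (hN : 1 ≤ N) (hL : r + 2 * N + 1 ≤ L)
    (hj : j ≤ N - 1) : ∃ y : ZMod L, r ≤ y.val ∧ ((β y).2 : ℕ) = j := by
  obtain ⟨t, ht, h1⟩ := find_zero h (r : ZMod L)
  have h2 := from_zero h _ h1 j hj
  have h3 : (r : ZMod L) + (t : ZMod L) + (j : ZMod L) = ((r + t + j : ℕ) : ZMod L) := by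
    push_cast
    ring
  rw [h3] at h2
  refine ⟨((r + t + j : ℕ) : ZMod L), ?_, h2⟩
  rw [ZMod.val_natCast_of_lt (by omega)]
  omega

end cyc

section glob

variable {d m M L r : ℕ} [NeZero L]

theorem glob_frame {Φ : BConf d m → ℂ} {θ : Til (m * M + 1) L} {s : Conf d L}
    (h : glob m M Φ θ s ≠ 0) (v : Site L)
    (hv : ((θ.1 v.1).2 : ℕ) = 0 ∨ ((θ.2 v.2).2 : ℕ) = 0) : (s v : ℕ) = 1 := by
  have h1 := Finset.prod_ne_zero_iff.1 h v (Finset.mem_univ v)
  by_contra hc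
  apply h1
  unfold fac
  rw [if_pos hv, if_neg hc]

theorem glob_zero {Φ : BConf d m → ℂ} {θ : Til (m * M + 1) L} {s : Conf d L}
    (h : glob m M Φ θ s ≠ 0) (v : Site L) (h1 : ((θ.1 v.1).2 : ℕ) ≠ 0)
    (h2 : ((θ.2 v.2).2 : ℕ) ≠ 0) (h3 : ¬ Blk m M (θ.1 v.1).2 (θ.2 v.2).2) : (s v : ℕ) = 0 := by
  have h4 := Finset.prod_ne_zero_iff.1 h v (Finset.mem_univ v)
  by_contra hc
  apply h4
  unfold fac
  rw [if_neg (by tauto), if_neg h3, if_neg hc]

/-- for every position there is another one for which the site does not belong to a sub-block -/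
theorem partner (hm : 0 < m) (hM : 0 < M) (i : ℕ) :
    ∃ j, 1 ≤ j ∧ j ≤ m * M ∧ ¬ Blk m M i j ∧ ¬ Blk m M j i := by
  have h0 : 0 < m * M := Nat.mul_pos hm hM
  by_cases hi : 1 ≤ i ∧ i ≤ m * M
  · exact ⟨i, hi.1, hi.2, fun h => h.2.2.2.2 rfl, fun h => h.2.2.2.2 rfl⟩
  · refine ⟨1, le_rfl, h0, fun h => hi ⟨h.1, h.2.1⟩, fun h => hi ⟨h.2.2.1, h.2.2.2.1⟩⟩

theorem col (hm : 0 < m) (hM : 0 < M) (hL : r + 2 * (m * M + 1) + 3 ≤ L) {Φ : BConf d m → ℂ}
    {θ θ' : Til (m * M + 1) L} (hθ' : Valid θ') {s s' : Conf d L}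
    (hs : ∀ w : Site L, ¬ (w.1.val < r ∧ w.2.val < r) → s w = s' w)
    (h1 : glob m M Φ θ s ≠ 0) (h2 : glob m M Φ θ' s' ≠ 0) (x : ZMod L)
    (hx : ((θ.1 x).2 : ℕ) = 0) (hx' : ((θ'.1 x).2 : ℕ) ≠ 0) : False := by
  obtain ⟨j, hj1, hj2, hj3, -⟩ := partner hm hM ((θ'.1 x).2 : ℕ)
  obtain ⟨y, hy1, hy2⟩ := find_pos hθ'.2 r j (by omega) (by omega) (by omega)
  have h3 := glob_frame h1 (x, y) (Or.inl hx)
  have h4 := glob_zero h2 (x, y) hx' (by
    show ((θ'.2 y).2 : ℕ) ≠ 0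
    omega) (by
    show ¬ Blk m M (θ'.1 x).2 (θ'.2 y).2
    rw [hy2]
    exact hj3)
  have h5 := hs (x, y) (fun h => by
    have := h.2
    simp only at this
    omega)
  rw [h5] at h3
  omega

theorem row (hm : 0 < m) (hM : 0 < M) (hL : r + 2 * (m * M + 1) + 3 ≤ L) {Φ : BConf d m → ℂ}
    {θ θ' : Til (m * M + 1) L} (hθ' : Valid θ') {s s' : Conf d L}
    (hs : ∀ w : Site L, ¬ (w.1.val < r ∧ w.2.val < r) → s w = s' w)
    (h1 : glob m M Φ θ s ≠ 0) (h2 : glob m M Φ θ' s' ≠ 0) (y : ZMod L)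
    (hy : ((θ.2 y).2 : ℕ) = 0) (hy' : ((θ'.2 y).2 : ℕ) ≠ 0) : False := by
  obtain ⟨j, hj1, hj2, -, hj3⟩ := partner hm hM ((θ'.2 y).2 : ℕ)
  obtain ⟨x, hx1, hx2⟩ := find_pos hθ'.1 r j (by omega) (by omega) (by omega)
  have h3 := glob_frame h1 (x, y) (Or.inr hy)
  have h4 := glob_zero h2 (x, y) (by
    show ((θ'.1 x).2 : ℕ) ≠ 0
    omega) hy' (by
    show ¬ Blk m M (θ'.1 x).2 (θ'.2 y).2
    rw [hx2]
    exact hj3)
  have h5 := hs (x, y) (fun h => by
    have := h.1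
    simp only at this
    omega)
  rw [h5] at h3
  omega

end glob

theorem orth : StmOrth := by
  intro d m M L r _ hm hM hL Φ θ θ' hθ hθ' hne s s' hs
  by_contra hcon
  push Not at hcon
  obtain ⟨h1, h2⟩ := hcon
  have hs' : ∀ w : Site L, ¬ (w.1.val < r ∧ w.2.val < r) → s' w = s w :=
    fun w hw => (hs w hw).symm
  apply hne
  apply Prod.ext
  · apply cyc_eq (by omega) hθ.1 hθ'.1
    intro x
    constructor
    · intro hx
      by_contra hc
      exact col hm hM hL hθ' hs h1 h2 x hx hc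
    · intro hx
      by_contra hc
      exact col hm hM hL hθ hs' h2 h1 x hx hc
  · apply cyc_eq (by omega) hθ.2 hθ'.2
    intro y
    constructor
    · intro hy
      by_contra hc
      exact row hm hM hL hθ' hs h1 h2 y hy hc
    · intro hy
      by_contra hc
      exact row hm hM hL hθ hs' h2 h1 y hy hc

end Pool.Agent.Y562.PE
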